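import Mathlib
import Pool.Agent.Q21.FT

set_option autoImplicit false

namespace Pool.Agent.Results.MP_66c699_al.TorsionAbelianization

open Equiv

/-- Automorphisms of the rooted tree whose vertices are the words over `X` (the root is the empty
word, and `v` lies above `w` exactly when `v` is an initial segment of `w`): the permutations of
the vertices that preserve this order in both directions. -/
def IsTreeAut {X : Type} (g : Perm (List X)) : Prop := ∀ v w : List X, v <+: w ↔ g v <+: g w

/-- The vertices of the finite subtree `T^[D]`: the words of length at most `D`. -/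
abbrev Tr (X : Type) (D : ℕ) : Type := {w : List X // w.length ≤ D}

/-- Automorphisms of the finite tree `T^[D]`. -/
def IsFinTreeAut {X : Type} {D : ℕ} (p : Perm (Tr X D)) : Prop :=
  ∀ v w : Tr X D, v.1 <+: w.1 ↔ (p v).1 <+: (p w).1

/-- `G = G_P`: the elements of `G` are the tree automorphisms `g` all of whose sections `g_v`
(given by `g (v w) = g(v) g_v(w)`) act on `T^[D]` as an element of `P`. -/
def IsGP {X : Type} (G : Subgroup (Perm (List X))) (D : ℕ) (P : Subgroup (Perm (Tr X D))) : Prop :=
  ∀ g : Perm (List X), g ∈ G ↔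
    IsTreeAut g ∧ ∀ v : List X, ∃ p ∈ P, ∀ w : Tr X D, g (v ++ w.1) = g v ++ (p w).1

/-- `G` is the group of finite type given by some group of automorphisms of `T^[D]`. -/
def IsFiniteType {X : Type} (G : Subgroup (Perm (List X))) (D : ℕ) : Prop :=
  1 ≤ D ∧ ∃ P : Subgroup (Perm (Tr X D)), (∀ p ∈ P, IsFinTreeAut p) ∧ IsGP G D P

/-- `G` is a group of finite type of depth `D` (`D` is least possible). -/
def IsFiniteTypeOfDepth {X : Type} (G : Subgroup (Perm (List X))) (D : ℕ) : Prop :=
  IsFiniteType G D ∧ ∀ D' : ℕ, IsFiniteType G D' → D ≤ D'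

/-- The stabiliser in `G` of the `n`-th level: the elements of `G` fixing every word of
length `n`. -/
def St {X : Type} (G : Subgroup (Perm (List X))) (n : ℕ) : Subgroup (Perm (List X)) where
  carrier := {g | g ∈ G ∧ ∀ w : List X, w.length = n → g w = w}
  mul_mem' := by
    rintro g h ⟨hg, hg'⟩ ⟨hh, hh'⟩
    refine ⟨G.mul_mem hg hh, fun w hw => ?_⟩
    show g (h w) = w
    rw [hh' w hw, hg' w hw]
  one_mem' := ⟨G.one_mem, fun w _ => rfl⟩
  inv_mem' := by
    rintro g ⟨hg, hg'⟩
    refine ⟨G.inv_mem hg, fun w hw => ?_⟩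
    show g.symm w = w
    rw [Equiv.symm_apply_eq, hg' w hw]

/-- The closure of a set `H` in the topology given by the level stabilisers: the permutations `g`
that agree on every finite part `T^[n]` of the tree with some element of `H`. -/
def treeClosure {X : Type} (H : Set (Perm (List X))) : Set (Perm (List X)) :=
  {g | ∀ n : ℕ, ∃ c ∈ H, ∀ w : List X, w.length ≤ n → g w = c w}

open Q21.FT Q21.SS

/-- For every `d ≥ 2` and every group of finite type `G` of depth `D` acting on the `d`-regular
rooted tree, there is `m > 0` such that `g ^ m` lies in the closure of the commutator subgroup of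
`St_G(D-1)` for all `g` in `St_G(D-1)`. The same holds for every `D` for which `G` is of the form
`G_P` with `P` a group of automorphisms of `T^[D]`. -/
theorem result (d : ℕ) (_ : 2 ≤ d) (G : Subgroup (Perm (List (Fin d)))) (D : ℕ)
    (hG : IsFiniteType G D) :
    ∃ m : ℕ, 0 < m ∧ ∀ g ∈ St G (D - 1),
      g ^ m ∈ treeClosure (⁅St G (D - 1), St G (D - 1)⁆ : Subgroup (Perm (List (Fin d)))) := by
  obtain ⟨hD, P, -, hP⟩ := hG
  have h1 : G = GP P := by
    ext g
    rw [hP]
    rfl
  have hfin : Finite (Tr (Fin d) D) := (List.finite_length_le (Fin d) D).to_subtype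
  have h2 : St G (D - 1) = StL (GP P) (D - 1) := by
    ext g
    constructor
    · rintro ⟨hg, hg'⟩
      rw [h1] at hg
      refine ⟨hg, fun w hw => ?_⟩
      have h3 : ∃ w', (w ++ w').length = D - 1 := by
        refine ⟨List.replicate (D - 1 - w.length) ⟨0, by omega⟩, ?_⟩
        rw [List.length_append, List.length_replicate]
        omega
      obtain ⟨w', hw'⟩ := h3
      have h4 := (hg.1 w (w ++ w')).1 (List.prefix_append _ _)
      rw [hg' _ hw'] at h4
      have h5 := List.prefix_of_prefix_length_le h4 (List.prefix_append w w') (hg.1.len_eq w).le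
      exact h5.eq_of_length (hg.1.len_eq w)
    · rintro ⟨hg, hg'⟩
      rw [← h1] at hg
      exact ⟨hg, fun w hw => hg' w hw.le⟩
  refine ⟨Monoid.exponent P, ?_, fun g hg n => ?_⟩
  · exact Nat.pos_of_ne_zero Monoid.exponent_ne_zero_of_finite
  · rw [h2] at hg ⊢
    exact Q21.FT.main hD hg n

/-- The question as posed: the quotient `St_G(D-1) / closure(St_G(D-1)')` is a torsion group
(indeed of finite exponent) for a group `G` of finite type of depth `D`. -/
theorem depth_version (d : ℕ) (hd : 2 ≤ d) (G : Subgroup (Perm (List (Fin d)))) (D : ℕ)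
    (hG : IsFiniteTypeOfDepth G D) :
    ∀ g ∈ St G (D - 1), ∃ m : ℕ, 0 < m ∧
      g ^ m ∈ treeClosure (⁅St G (D - 1), St G (D - 1)⁆ : Subgroup (Perm (List (Fin d)))) := by
  obtain ⟨m, hm, h⟩ := result d hd G D hG.1
  exact fun g hg => ⟨m, hm, h g hg⟩

end Pool.Agent.Results.MP_66c699_al.TorsionAbelianization
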